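import Pool.Agent.Helper41.NC.Main

/-!
# Eigenvalues of normal compressions of codimension two

For `n = k + 2` the pair `(a, b)` is realizable if and only if it is a composition of two line
steps (through some `c` with `k + 1` entries), or it is one hyperbolic step.
-/

namespace Pool.Agent.Results.MP_ca8ee9_an.CodimTwo

open Pool.Agent.Helper41.NC

theorem result (k : ℕ) (a : Fin k → ℂ) (b : Fin (k + 2) → ℂ) :
    Realizable a b ↔
      (∃ c : Fin (k + 1) → ℂ, LineStep (entries a) (entries c) ∧
        LineStep (entries c) (entries b)) ∨
      HypStep (entries a) (entries b) :=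
  codim_two k a b

end Pool.Agent.Results.MP_ca8ee9_an.CodimTwo
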