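import Pool.Agent.Helper41.NC.Curve

/-!
# Eigenvalues of normal compressions: the common curve, all codimensions

If a normal matrix with eigenvalues `a` is a compression of a normal matrix with eigenvalues `b`
and the codimension is `m`, then there are `m` real lines `Im (d_s z) = p_s` and a real
polynomial `G` of degree at most `m - 2` (`G = 0` if `m ≤ 1`) such that every number whose
multiplicities in `a` and in `b` differ lies on the real algebraic curve
`∏ (Im (d_s z) - p_s) + G(x, y) = 0`, whose asymptotes are these lines; and in each of these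
`m` directions the numbers `Im (d_s a_i)` together with `p_s` satisfy the Cauchy interlacing
inequalities of codimension `m - 1` with respect to the numbers `Im (d_s b_j)`.
-/

namespace Pool.Agent.Results.MP_ca8ee9_an.CommonCurve

open Pool.Agent.Helper41.NC

theorem result (k m : ℕ) (a : Fin k → ℂ) (b : Fin (k + m) → ℂ) (h : Realizable a b) :
    ∃ (d : Fin m → ℂ) (p : Fin m → ℝ) (G : MvPolynomial (Fin 2) ℝ),
      (∀ s, ‖d s‖ = 1) ∧ (G = 0 ∨ G.totalDegree + 2 ≤ m) ∧
      (∀ l : ℂ, (entries a).count l ≠ (entries b).count l →
        ∏ s, ((d s * l).im - p s) + MvPolynomial.eval ![l.re, l.im] G = 0) ∧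
      (∀ (s : Fin m) (t : ℝ),
        (Finset.univ.filter (fun i => t ≤ (d s * a i).im)).card + (if t ≤ p s then 1 else 0)
          ≤ (Finset.univ.filter (fun j => t ≤ (d s * b j).im)).card ∧
        (Finset.univ.filter (fun j => t ≤ (d s * b j).im)).card + 1
          ≤ (Finset.univ.filter (fun i => t ≤ (d s * a i).im)).card
            + (if t ≤ p s then 1 else 0) + m) :=
  curve_core (by simp) ((realizable_iff_core a b).mp h)

end Pool.Agent.Results.MP_ca8ee9_an.CommonCurve
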