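import Pool.Agent.Helper41.NC.Rat

/-!
# Eigenvalues of normal compressions: rational curves, every codimension

If `r₀ < s₀ < r₁ < ⋯ < s_{m-1} < r_m` and `f` is a complex rational function
`γ + αx + ∑_{q ∈ Q} β_q/(x - s_q)` with simple poles at some of the `s_q`, then the numbers
`f(s_i)`, `i ∉ Q`, are the eigenvalues of a normal compression, of codimension `|Q| + 1`, of a
normal matrix with eigenvalues `f(r_j)`; common eigenvalues may be added.
-/

namespace Pool.Agent.Results.MP_ca8ee9_an.RationalCurves

open Pool.Agent.Helper41.NC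

theorem result {m k n : ℕ} (r : Fin (m + 1) → ℝ) (s : Fin m → ℝ) (h : Alternate r s)
    (Q : Finset (Fin m)) (γ α : ℂ) (β : Fin m → ℂ) (e : Multiset ℂ) (a : Fin k → ℂ)
    (b : Fin n → ℂ)
    (ha : entries a = e + (Finset.univ \ Q).val.map
      (fun i => γ + α * s i + ∑ q ∈ Q, β q / ((s i : ℂ) - s q)))
    (hb : entries b = e + Finset.univ.val.map
      (fun j => γ + α * r j + ∑ q ∈ Q, β q / ((r j : ℂ) - s q))) :
    Realizable a b :=
  realizable_rat r s h Q γ α β e a b ha hb

end Pool.Agent.Results.MP_ca8ee9_an.RationalCurves
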